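import Mathlib

/-! # A constructor for finite CW complexes -/

set_option autoImplicit false

open Metric Set Topology

namespace Pool.Agent.W826.SC

/-- The inverse of a map on the open ball is continuous. -/
theorem inv_cont {X : Type} [TopologicalSpace X] [T2Space X] {n : ℕ} {f : (Fin n → ℝ) → X}
    (hc : ContinuousOn f (closedBall 0 1)) (hi : InjOn f (ball 0 1))
    (hd : Disjoint (f '' sphere 0 1) (f '' ball 0 1)) :
    ContinuousOn (hi.toPartialEquiv).symm (f '' ball 0 1) := by
  set g := (hi.toPartialEquiv).symm with hg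
  have hgf : ∀ x ∈ ball (0 : Fin n → ℝ) 1, g (f x) = x := by
    intro x hx
    exact (hi.toPartialEquiv).left_inv hx
  rintro y ⟨x, hx, rfl⟩
  intro U hU
  rw [hgf x hx] at hU
  obtain ⟨U', hU'U, hU'o, hxU'⟩ := _root_.mem_nhds_iff.1 hU
  have hF : IsCompact (closedBall (0 : Fin n → ℝ) 1 \ U') :=
    (isCompact_closedBall _ _).diff hU'o
  have hfF : IsClosed (f '' (closedBall (0 : Fin n → ℝ) 1 \ U')) :=
    (hF.image_of_continuousOn (hc.mono diff_subset)).isClosed
  rw [Filter.mem_map, mem_nhdsWithin]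
  refine ⟨_, hfF.isOpen_compl, ?_, ?_⟩
  · rintro ⟨x', ⟨hx'1, hx'2⟩, he⟩
    rw [← ball_union_sphere] at hx'1
    rcases hx'1 with hx'1 | hx'1
    · have := hi hx'1 hx he
      subst this
      exact hx'2 hxU'
    · exact Set.disjoint_left.1 hd ⟨x', hx'1, he⟩ ⟨x, hx, rfl⟩
  · rintro _ ⟨h1, ⟨x', hx', rfl⟩⟩
    apply hU'U
    rw [hgf x' hx']
    by_contra h2
    exact h1 ⟨x', ⟨ball_subset_closedBall hx', h2⟩, rfl⟩

theorem lower {X : Type} (cell : ℕ → Type) (φ : (n : ℕ) → cell n → (Fin n → ℝ) → X)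
    (hs : ∀ n j, MapsTo (φ n j) (sphere 0 1) (⋃ (m < n) (j : cell m), φ m j '' closedBall 0 1))
    (n : ℕ) : (⋃ (m < n) (j : cell m), φ m j '' closedBall 0 1) ⊆
      ⋃ (m < n) (j : cell m), φ m j '' ball 0 1 := by
  have key : ∀ m (j : cell m), φ m j '' closedBall 0 1 ⊆
      ⋃ (k < m + 1) (j : cell k), φ k j '' ball 0 1 := by
    intro m
    induction m using Nat.strong_induction_on with
    | _ m ih =>
      rintro j _ ⟨x, hx, rfl⟩
      rw [← ball_union_sphere] at hx
      simp only [mem_iUnion, exists_prop]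
      rcases hx with hx | hx
      · exact ⟨m, by omega, j, x, hx, rfl⟩
      · have := hs m j hx
        simp only [mem_iUnion, exists_prop] at this
        obtain ⟨k, hk, i, hi⟩ := this
        have h2 := ih k hk i hi
        simp only [mem_iUnion, exists_prop] at h2
        obtain ⟨l, hl, i', hi'⟩ := h2
        exact ⟨l, by omega, i', hi'⟩
  intro y hy
  simp only [mem_iUnion, exists_prop] at hy ⊢
  obtain ⟨m, hm, j, hj⟩ := hy
  have := key m j hj
  simp only [mem_iUnion, exists_prop] at this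
  obtain ⟨k, hk, i, hi⟩ := this
  exact ⟨k, by omega, i, hi⟩

theorem mkCW {X : Type} [TopologicalSpace X] [T2Space X] (cell : ℕ → Type)
    (φ : (n : ℕ) → cell n → (Fin n → ℝ) → X)
    (hev : ∀ᶠ n in Filter.atTop, IsEmpty (cell n)) (hfin : ∀ n, _root_.Finite (cell n))
    (hc : ∀ n j, ContinuousOn (φ n j) (closedBall 0 1))
    (hi : ∀ n j, InjOn (φ n j) (ball 0 1))
    (hd : (univ : Set (Σ n, cell n)).PairwiseDisjoint (fun ni => φ ni.1 ni.2 '' ball 0 1))
    (hs : ∀ n j, MapsTo (φ n j) (sphere 0 1) (⋃ (m < n) (j : cell m), φ m j '' closedBall 0 1))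
    (hu : ⋃ (n : ℕ) (j : cell n), φ n j '' closedBall 0 1 = univ) :
    ∃ cw : Topology.CWComplex (univ : Set X), Topology.RelCWComplex.Finite (univ : Set X) ∧
      ∀ m : ℕ, (Topology.RelCWComplex.skeletonLT (univ : Set X) (m : ℕ∞) : Set X) =
        ⋃ (k < m) (j : cell k), φ k j '' closedBall 0 1 := by
  have hdis : ∀ n j, Disjoint (φ n j '' sphere 0 1) (φ n j '' ball 0 1) := by
    intro n j
    rw [Set.disjoint_left]
    rintro _ ⟨x, hx, rfl⟩ hy
    have h1 := lower cell φ hs n (hs n j hx)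
    simp only [mem_iUnion, exists_prop] at h1
    obtain ⟨m, hm, i, hmi⟩ := h1
    have hne : (⟨m, i⟩ : Σ n, cell n) ≠ ⟨n, j⟩ := by
      intro h
      have := congrArg Sigma.fst h
      simp only at this
      omega
    exact Set.disjoint_left.1 (hd (mem_univ _) (mem_univ _) hne) hmi hy
  refine ⟨Topology.CWComplex.mkFinite (univ : Set X) cell (fun n j => (hi n j).toPartialEquiv)
    hev hfin (fun n j => rfl) hc (fun n j => inv_cont (hc n j) (hi n j) (hdis n j)) hd hs hu,
    Topology.CWComplex.finite_mkFinite (univ : Set X) cell (fun n j => (hi n j).toPartialEquiv)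
    hev hfin (fun n j => rfl) hc (fun n j => inv_cont (hc n j) (hi n j) (hdis n j)) hd hs hu, ?_⟩
  intro m
  rw [Topology.RelCWComplex.coe_skeletonLT, empty_union]
  simp only [Nat.cast_lt]
  rfl

end Pool.Agent.W826.SC
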