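import Mathlib
import Pool.Agent.W622.SC.Stmts
import Pool.Agent.W826.SC.MkCW

/-! # SC-CWAT: `K ∨ Σ²Q` is a finite CW complex -/

set_option autoImplicit false

open unitInterval Topology ContinuousMap
open Metric (ball closedBall sphere ball_subset_closedBall)

namespace Pool.Agent.W826.SC.CwAt

open Pool.Agent.W622.SC

noncomputable section

/-- projection to the unit interval -/
def pj (x : ℝ) : I := Set.projIcc 0 1 zero_le_one x

theorem pj_cont : Continuous pj := continuous_projIcc (h := zero_le_one)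

theorem pj_val {x : ℝ} (h0 : 0 ≤ x) (h1 : x ≤ 1) : ((pj x : I) : ℝ) = x := by
  unfold pj
  rw [Set.coe_projIcc]
  rw [min_eq_right h1, max_eq_right h0]

theorem pj_zero {x : ℝ} (h : x ≤ 0) : pj x = 0 := Set.projIcc_of_le_left _ h

theorem pj_one {x : ℝ} (h : 1 ≤ x) : pj x = 1 := Set.projIcc_of_right_le _ h

theorem pj_self (t : I) : pj (t : ℝ) = t := Set.projIcc_val _ t

theorem pj_ne_zero {x : ℝ} (h : 0 < x) : pj x ≠ 0 := by
  intro h0
  rcases le_or_gt x 1 with h1 | h1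
  · have := congrArg Subtype.val h0
    rw [pj_val h.le h1] at this
    have h2 : x = 0 := this
    linarith
  · rw [pj_one h1.le] at h0
    exact one_ne_zero h0

theorem pj_ne_one {x : ℝ} (h : x < 1) : pj x ≠ 1 := by
  intro h0
  rcases le_or_gt 0 x with h1 | h1
  · have := congrArg Subtype.val h0
    rw [pj_val h1 h.le] at this
    have h2 : x = 1 := this
    linarith
  · rw [pj_zero h1.le] at h0
    exact zero_ne_one h0

theorem pj_inj {x y : ℝ} (hx0 : 0 ≤ x) (hx1 : x ≤ 1) (hy0 : 0 ≤ y) (hy1 : y ≤ 1)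
    (h : pj x = pj y) : x = y := by
  have := congrArg Subtype.val h
  rwa [pj_val hx0 hx1, pj_val hy0 hy1] at this

theorem Qnf_none {x : I × I} : Qnf x = none ↔ Qbad x := by
  unfold Qnf
  split_ifs with h h'
  · simp [h]
  · simp [h]
  · simp [h]

theorem QQ_pt_iff {x : I × I} : QQ.mk x = QQ.pt ↔ Qbad x := by
  have h0 : Qnf ((0 : I), (0 : I)) = none := Qnf_none.2 (Or.inl rfl)
  unfold QQ.pt
  rw [QQ.mk_eq_iff, h0, Qnf_none]

theorem QQ_shift {w w' : I} (h : (w' : ℝ) = w + 1 / 2) : QQ.mk (w, 0) = QQ.mk (w', 0) := by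
  rw [QQ.mk_eq_iff]
  have hw'1 : (w' : ℝ) ≤ 1 := w'.2.2
  have hw0 : (0 : ℝ) ≤ w := w.2.1
  by_cases hb : Qbad (w, 0)
  · have hb' : Qbad (w', 0) := by
      rcases hb with hb | hb | hb | ⟨-, hb⟩
      · right; right; right
        refine ⟨rfl, ?_⟩
        have : (w : ℝ) = 0 := congrArg Subtype.val hb
        show (w' : ℝ) = 1 / 2
        linarith
      · exfalso
        have : (w : ℝ) = 1 := congrArg Subtype.val hb
        linarith
      · exfalso
        exact zero_ne_one hb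
      · right; left
        apply Subtype.ext
        have : (w : ℝ) = 1 / 2 := hb
        show (w' : ℝ) = 1
        linarith
    rw [Qnf_none.2 hb, Qnf_none.2 hb']
  · have hb' : ¬ Qbad (w', 0) := by
      intro hb'
      apply hb
      rcases hb' with hb' | hb' | hb' | ⟨-, hb'⟩
      · exfalso
        have : (w' : ℝ) = 0 := congrArg Subtype.val hb'
        linarith
      · right; right; right
        refine ⟨rfl, ?_⟩
        have : (w' : ℝ) = 1 := congrArg Subtype.val hb'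
        show (w : ℝ) = 1 / 2
        linarith
      · exfalso
        exact zero_ne_one hb'
      · left
        apply Subtype.ext
        have : (w' : ℝ) = 1 / 2 := hb'
        show (w : ℝ) = 0
        linarith
    unfold Qnf
    rw [if_neg hb, if_neg hb', if_pos rfl, if_pos rfl]
    congr 2
    show Int.fract (2 * (w : ℝ)) = Int.fract (2 * (w' : ℝ))
    have e : 2 * (w' : ℝ) = 2 * (w : ℝ) + 1 := by linarith
    rw [e, Int.fract_add_one]

/-- the three-cell -/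
def a3 (x : Fin 3 → ℝ) : S2 QQ.pt :=
  S2.mk QQ.pt (![pj ((x 0 + 1) / 2), pj ((x 1 + 1) / 2)], QQ.mk (pj ((x 2 + 1) / 4), 0))

/-- the four-cell -/
def a4 (x : Fin 4 → ℝ) : S2 QQ.pt :=
  S2.mk QQ.pt (![pj ((x 0 + 1) / 2), pj ((x 1 + 1) / 2)],
    QQ.mk (pj ((x 2 + 1) / 2), pj ((x 3 + 1) / 2)))

theorem vec_cont {Y : Type} [TopologicalSpace Y] {f g : Y → I} (hf : Continuous f)
    (hg : Continuous g) : Continuous (fun y => (![f y, g y] : Fin 2 → I)) := by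
  refine continuous_pi fun i => ?_
  fin_cases i
  · exact hf
  · exact hg

theorem a3_cont : Continuous a3 := by
  unfold a3
  refine (S2.mk QQ.pt).continuous.comp (Continuous.prodMk (vec_cont ?_ ?_) ?_)
  · exact pj_cont.comp (by fun_prop)
  · exact pj_cont.comp (by fun_prop)
  · exact QQ.mk.continuous.comp (Continuous.prodMk (pj_cont.comp (by fun_prop)) continuous_const)

theorem a4_cont : Continuous a4 := by
  unfold a4
  refine (S2.mk QQ.pt).continuous.comp (Continuous.prodMk (vec_cont ?_ ?_) ?_)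
  · exact pj_cont.comp (by fun_prop)
  · exact pj_cont.comp (by fun_prop)
  · exact QQ.mk.continuous.comp (Continuous.prodMk (pj_cont.comp (by fun_prop))
      (pj_cont.comp (by fun_prop)))

theorem ball_i {n : ℕ} {x : Fin n → ℝ} (hx : x ∈ ball (0 : Fin n → ℝ) 1) (i : Fin n) :
    -1 < x i ∧ x i < 1 := by
  rw [mem_ball_zero_iff] at hx
  have h := (norm_le_pi_norm x i).trans_lt hx
  rw [Real.norm_eq_abs, abs_lt] at h
  exact h

theorem cball_i {n : ℕ} {x : Fin n → ℝ} (hx : x ∈ closedBall (0 : Fin n → ℝ) 1) (i : Fin n) :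
    -1 ≤ x i ∧ x i ≤ 1 := by
  rw [mem_closedBall_zero_iff] at hx
  have h := (norm_le_pi_norm x i).trans hx
  rw [Real.norm_eq_abs, abs_le] at h
  exact h

theorem cball_of {n : ℕ} {x : Fin n → ℝ} (h : ∀ i, -1 ≤ x i ∧ x i ≤ 1) :
    x ∈ closedBall (0 : Fin n → ℝ) 1 := by
  rw [mem_closedBall_zero_iff, pi_norm_le_iff_of_nonneg zero_le_one]
  intro i
  rw [Real.norm_eq_abs, abs_le]
  exact h i

theorem sphere_i {n : ℕ} {x : Fin n → ℝ} (hx : x ∈ sphere (0 : Fin n → ℝ) 1) :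
    ∃ i, x i = 1 ∨ x i = -1 := by
  by_contra hcon
  push Not at hcon
  rw [mem_sphere_zero_iff_norm] at hx
  have h1 : ‖x‖ < 1 := by
    rw [pi_norm_lt_iff zero_lt_one]
    intro i
    have h2 : |x i| ≤ 1 := by
      have := norm_le_pi_norm x i
      rwa [hx] at this
    refine lt_of_le_of_ne h2 ?_
    intro h3
    have h3' : |x i| = 1 := h3
    rcases (abs_eq zero_le_one).1 h3' with h4 | h4
    · exact (hcon i).1 h4
    · exact (hcon i).2 h4
  linarith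

theorem tnb {x y : ℝ} (hx : -1 < x ∧ x < 1) (hy : -1 < y ∧ y < 1) :
    (![pj ((x + 1) / 2), pj ((y + 1) / 2)] : Fin 2 → I) ∉ Cube.boundary (Fin 2) := by
  rintro ⟨i, hi⟩
  fin_cases i
  · rcases hi with hi | hi
    · exact pj_ne_zero (by linarith [hx.1]) hi
    · exact pj_ne_one (by linarith [hx.2]) hi
  · rcases hi with hi | hi
    · exact pj_ne_zero (by linarith [hy.1]) hi
    · exact pj_ne_one (by linarith [hy.2]) hi

theorem qnb3 {z : ℝ} (hz : -1 < z ∧ z < 1) : ¬ Qbad (pj ((z + 1) / 4), 0) := by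
  obtain ⟨h1, h2⟩ := hz
  rintro (h | h | h | ⟨-, h⟩)
  · exact pj_ne_zero (by linarith) h
  · exact pj_ne_one (by linarith) h
  · exact zero_ne_one h
  · have h' : ((pj ((z + 1) / 4) : I) : ℝ) = 1 / 2 := h
    rw [pj_val (by linarith) (by linarith)] at h'
    linarith

theorem qnb4 {z u : ℝ} (hz : -1 < z ∧ z < 1) (hu : -1 < u ∧ u < 1) :
    ¬ Qbad (pj ((z + 1) / 2), pj ((u + 1) / 2)) := by
  obtain ⟨h1, h2⟩ := hz
  obtain ⟨h3, h4⟩ := hu
  rintro (h | h | h | ⟨h, -⟩)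
  · exact pj_ne_zero (by linarith) h
  · exact pj_ne_one (by linarith) h
  · exact pj_ne_one (by linarith) h
  · exact pj_ne_zero (by linarith) h

theorem a3_nb {x : Fin 3 → ℝ} (hx : x ∈ ball (0 : Fin 3 → ℝ) 1) :
    ¬ S2bad QQ.pt ((![pj ((x 0 + 1) / 2), pj ((x 1 + 1) / 2)] : Fin 2 → I),
      QQ.mk (pj ((x 2 + 1) / 4), 0)) := by
  rintro (h | h)
  · exact tnb (ball_i hx 0) (ball_i hx 1) h
  · exact qnb3 (ball_i hx 2) (QQ_pt_iff.1 h)

theorem a4_nb {x : Fin 4 → ℝ} (hx : x ∈ ball (0 : Fin 4 → ℝ) 1) :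
    ¬ S2bad QQ.pt ((![pj ((x 0 + 1) / 2), pj ((x 1 + 1) / 2)] : Fin 2 → I),
      QQ.mk (pj ((x 2 + 1) / 2), pj ((x 3 + 1) / 2))) := by
  rintro (h | h)
  · exact tnb (ball_i hx 0) (ball_i hx 1) h
  · exact qnb4 (ball_i hx 2) (ball_i hx 3) (QQ_pt_iff.1 h)

theorem a3_ne {x : Fin 3 → ℝ} (hx : x ∈ ball (0 : Fin 3 → ℝ) 1) : a3 x ≠ S2.pt QQ.pt :=
  fun h => a3_nb hx (S2.mk_eq_pt_iff.1 h)

theorem a4_ne {x : Fin 4 → ℝ} (hx : x ∈ ball (0 : Fin 4 → ℝ) 1) : a4 x ≠ S2.pt QQ.pt :=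
  fun h => a4_nb hx (S2.mk_eq_pt_iff.1 h)

theorem t_inj {x y x' y' : ℝ} (hx : -1 < x ∧ x < 1) (hy : -1 < y ∧ y < 1)
    (hx' : -1 < x' ∧ x' < 1) (hy' : -1 < y' ∧ y' < 1)
    (h : (![pj ((x + 1) / 2), pj ((y + 1) / 2)] : Fin 2 → I) =
      ![pj ((x' + 1) / 2), pj ((y' + 1) / 2)]) : x = x' ∧ y = y' := by
  have h0 : pj ((x + 1) / 2) = pj ((x' + 1) / 2) := congrFun h 0
  have h1 : pj ((y + 1) / 2) = pj ((y' + 1) / 2) := congrFun h 1
  have e0 := pj_inj (by linarith [hx.1]) (by linarith [hx.2]) (by linarith [hx'.1])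
    (by linarith [hx'.2]) h0
  have e1 := pj_inj (by linarith [hy.1]) (by linarith [hy.2]) (by linarith [hy'.1])
    (by linarith [hy'.2]) h1
  constructor <;> linarith

theorem a3_inj : Set.InjOn a3 (ball (0 : Fin 3 → ℝ) 1) := by
  intro x hx y hy h
  rcases S2.mk_eq_iff'.1 h with h | h
  · exact absurd h.1 (a3_nb hx)
  · have h2 := h.2
    rw [Prod.mk.injEq] at h2
    obtain ⟨ht, hq⟩ := h2
    obtain ⟨e0, e1⟩ := t_inj (ball_i hx 0) (ball_i hx 1) (ball_i hy 0) (ball_i hy 1) ht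
    rw [QQ.mk_eq_iff] at hq
    unfold Qnf at hq
    rw [if_neg (qnb3 (ball_i hx 2)), if_neg (qnb3 (ball_i hy 2)), if_pos rfl, if_pos rfl] at hq
    have hq' : Int.fract (2 * ((pj ((x 2 + 1) / 4) : I) : ℝ)) =
        Int.fract (2 * ((pj ((y 2 + 1) / 4) : I) : ℝ)) := by
      simpa using hq
    obtain ⟨hx1, hx2⟩ := ball_i hx 2
    obtain ⟨hy1, hy2⟩ := ball_i hy 2
    rw [pj_val (by linarith) (by linarith), pj_val (by linarith) (by linarith),
      Int.fract_eq_self.2 ⟨by linarith, by linarith⟩,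
      Int.fract_eq_self.2 ⟨by linarith, by linarith⟩] at hq'
    funext i
    fin_cases i
    · exact e0
    · exact e1
    · show x 2 = y 2
      linarith

theorem a4_inj : Set.InjOn a4 (ball (0 : Fin 4 → ℝ) 1) := by
  intro x hx y hy h
  rcases S2.mk_eq_iff'.1 h with h | h
  · exact absurd h.1 (a4_nb hx)
  · have h2 := h.2
    rw [Prod.mk.injEq] at h2
    obtain ⟨ht, hq⟩ := h2
    obtain ⟨e0, e1⟩ := t_inj (ball_i hx 0) (ball_i hx 1) (ball_i hy 0) (ball_i hy 1) ht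
    rw [QQ.mk_eq_iff] at hq
    unfold Qnf at hq
    obtain ⟨hx1, hx2⟩ := ball_i hx 2
    obtain ⟨hy1, hy2⟩ := ball_i hy 2
    obtain ⟨hx3, hx4⟩ := ball_i hx 3
    obtain ⟨hy3, hy4⟩ := ball_i hy 3
    rw [if_neg (qnb4 (ball_i hx 2) (ball_i hx 3)), if_neg (qnb4 (ball_i hy 2) (ball_i hy 3)),
      if_neg (pj_ne_zero (by linarith)), if_neg (pj_ne_zero (by linarith))] at hq
    rw [Option.some.injEq, Prod.mk.injEq] at hq
    obtain ⟨g1, g2⟩ := hq
    simp only at g1 g2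
    rw [pj_val (by linarith) (by linarith), pj_val (by linarith) (by linarith)] at g1 g2
    funext i
    fin_cases i
    · exact e0
    · exact e1
    · show x 2 = y 2
      linarith
    · show x 3 = y 3
      linarith

theorem a34 {x : Fin 3 → ℝ} {y : Fin 4 → ℝ} (hx : x ∈ ball (0 : Fin 3 → ℝ) 1)
    (hy : y ∈ ball (0 : Fin 4 → ℝ) 1) (h : a3 x = a4 y) : False := by
  rcases S2.mk_eq_iff'.1 h with h | h
  · exact absurd h.1 (a3_nb hx)
  · have h2 := h.2
    rw [Prod.mk.injEq] at h2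
    have hq := h2.2
    rw [QQ.mk_eq_iff] at hq
    unfold Qnf at hq
    obtain ⟨hy3, hy4⟩ := ball_i hy 3
    rw [if_neg (qnb3 (ball_i hx 2)), if_pos rfl, if_neg (qnb4 (ball_i hy 2) (ball_i hy 3)),
      if_neg (pj_ne_zero (by linarith))] at hq
    rw [Option.some.injEq, Prod.mk.injEq] at hq
    have g2 := hq.2
    simp only at g2
    rw [pj_val (by linarith) (by linarith)] at g2
    linarith

theorem bd0 {x y : ℝ} (h : x = 1 ∨ x = -1) :
    (![pj ((x + 1) / 2), pj ((y + 1) / 2)] : Fin 2 → I) ∈ Cube.boundary (Fin 2) := by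
  refine ⟨0, ?_⟩
  show pj ((x + 1) / 2) = 0 ∨ pj ((x + 1) / 2) = 1
  rcases h with h | h
  · right; exact pj_one (by rw [h]; norm_num)
  · left; exact pj_zero (by rw [h]; norm_num)

theorem bd1 {x y : ℝ} (h : y = 1 ∨ y = -1) :
    (![pj ((x + 1) / 2), pj ((y + 1) / 2)] : Fin 2 → I) ∈ Cube.boundary (Fin 2) := by
  refine ⟨1, ?_⟩
  show pj ((y + 1) / 2) = 0 ∨ pj ((y + 1) / 2) = 1
  rcases h with h | h
  · right; exact pj_one (by rw [h]; norm_num)
  · left; exact pj_zero (by rw [h]; norm_num)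

theorem a3_sph {x : Fin 3 → ℝ} (hx : x ∈ sphere (0 : Fin 3 → ℝ) 1) : a3 x = S2.pt QQ.pt := by
  obtain ⟨i, hi⟩ := sphere_i hx
  apply S2.mk_bad
  fin_cases i
  · exact Or.inl (bd0 hi)
  · exact Or.inl (bd1 hi)
  · right
    show QQ.mk (pj ((x 2 + 1) / 4), 0) = QQ.pt
    rw [QQ_pt_iff]
    have hi' : x 2 = 1 ∨ x 2 = -1 := hi
    rcases hi' with h | h
    · right; right; right
      refine ⟨rfl, ?_⟩
      show ((pj ((x 2 + 1) / 4) : I) : ℝ) = 1 / 2
      rw [h, pj_val (by norm_num) (by norm_num)]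
      norm_num
    · left
      exact pj_zero (by rw [h]; norm_num)

theorem pj_two (t : I) : pj ((2 * (t : ℝ) - 1 + 1) / 2) = t := by
  have e : (2 * (t : ℝ) - 1 + 1) / 2 = t := by ring
  rw [e, pj_self]

theorem mem3 (t : Fin 2 → I) (w : I) :
    ∃ x ∈ closedBall (0 : Fin 3 → ℝ) 1, a3 x = S2.mk QQ.pt (t, QQ.mk (w, 0)) := by
  have main : ∀ w : I, (w : ℝ) ≤ 1 / 2 →
      ∃ x ∈ closedBall (0 : Fin 3 → ℝ) 1, a3 x = S2.mk QQ.pt (t, QQ.mk (w, 0)) := by
    intro w hw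
    have hw0 : (0 : ℝ) ≤ w := w.2.1
    have h00 : (0 : ℝ) ≤ t 0 := (t 0).2.1
    have h01 : ((t 0 : I) : ℝ) ≤ 1 := (t 0).2.2
    have h10 : (0 : ℝ) ≤ t 1 := (t 1).2.1
    have h11 : ((t 1 : I) : ℝ) ≤ 1 := (t 1).2.2
    refine ⟨![2 * (t 0 : ℝ) - 1, 2 * (t 1 : ℝ) - 1, 4 * (w : ℝ) - 1], ?_, ?_⟩
    · apply cball_of
      intro i
      fin_cases i
      · show -1 ≤ 2 * (t 0 : ℝ) - 1 ∧ 2 * (t 0 : ℝ) - 1 ≤ 1
        constructor <;> linarith
      · show -1 ≤ 2 * (t 1 : ℝ) - 1 ∧ 2 * (t 1 : ℝ) - 1 ≤ 1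
        constructor <;> linarith
      · show -1 ≤ 4 * (w : ℝ) - 1 ∧ 4 * (w : ℝ) - 1 ≤ 1
        constructor <;> linarith
    · show S2.mk QQ.pt (![pj ((2 * (t 0 : ℝ) - 1 + 1) / 2), pj ((2 * (t 1 : ℝ) - 1 + 1) / 2)],
        QQ.mk (pj ((4 * (w : ℝ) - 1 + 1) / 4), 0)) = _
      rw [pj_two, pj_two]
      have e : (4 * (w : ℝ) - 1 + 1) / 4 = w := by ring
      rw [e, pj_self]
      congr 2
      funext i
      fin_cases i <;> rfl
  rcases le_or_gt (w : ℝ) (1 / 2) with h | h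
  · exact main w h
  · have hw1 : (w : ℝ) ≤ 1 := w.2.2
    have hv : (0 : ℝ) ≤ (w : ℝ) - 1 / 2 ∧ (w : ℝ) - 1 / 2 ≤ 1 := ⟨by linarith, by linarith⟩
    have := QQ_shift (w := ⟨(w : ℝ) - 1 / 2, hv⟩) (w' := w) (by
      show (w : ℝ) = (w : ℝ) - 1 / 2 + 1 / 2
      ring)
    rw [← this]
    exact main _ (by show (w : ℝ) - 1 / 2 ≤ 1 / 2; linarith)

theorem mem4 (t : Fin 2 → I) (w r : I) :
    ∃ x ∈ closedBall (0 : Fin 4 → ℝ) 1, a4 x = S2.mk QQ.pt (t, QQ.mk (w, r)) := by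
  have h00 : (0 : ℝ) ≤ t 0 := (t 0).2.1
  have h01 : ((t 0 : I) : ℝ) ≤ 1 := (t 0).2.2
  have h10 : (0 : ℝ) ≤ t 1 := (t 1).2.1
  have h11 : ((t 1 : I) : ℝ) ≤ 1 := (t 1).2.2
  have hw0 : (0 : ℝ) ≤ w := w.2.1
  have hw1 : (w : ℝ) ≤ 1 := w.2.2
  have hr0 : (0 : ℝ) ≤ r := r.2.1
  have hr1 : (r : ℝ) ≤ 1 := r.2.2
  refine ⟨![2 * (t 0 : ℝ) - 1, 2 * (t 1 : ℝ) - 1, 2 * (w : ℝ) - 1, 2 * (r : ℝ) - 1], ?_, ?_⟩
  · apply cball_of
    intro i
    fin_cases i
    · show -1 ≤ 2 * (t 0 : ℝ) - 1 ∧ 2 * (t 0 : ℝ) - 1 ≤ 1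
      constructor <;> linarith
    · show -1 ≤ 2 * (t 1 : ℝ) - 1 ∧ 2 * (t 1 : ℝ) - 1 ≤ 1
      constructor <;> linarith
    · show -1 ≤ 2 * (w : ℝ) - 1 ∧ 2 * (w : ℝ) - 1 ≤ 1
      constructor <;> linarith
    · show -1 ≤ 2 * (r : ℝ) - 1 ∧ 2 * (r : ℝ) - 1 ≤ 1
      constructor <;> linarith
  · show S2.mk QQ.pt (![pj ((2 * (t 0 : ℝ) - 1 + 1) / 2), pj ((2 * (t 1 : ℝ) - 1 + 1) / 2)],
      QQ.mk (pj ((2 * (w : ℝ) - 1 + 1) / 2), pj ((2 * (r : ℝ) - 1 + 1) / 2))) = _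
    rw [pj_two, pj_two, pj_two, pj_two]
    congr 2
    funext i
    fin_cases i <;> rfl

theorem a4_sph {x : Fin 4 → ℝ} (hx : x ∈ sphere (0 : Fin 4 → ℝ) 1) :
    a4 x = S2.pt QQ.pt ∨ ∃ y ∈ closedBall (0 : Fin 3 → ℝ) 1, a4 x = a3 y := by
  obtain ⟨i, hi⟩ := sphere_i hx
  fin_cases i
  · left; exact S2.mk_bad (Or.inl (bd0 hi))
  · left; exact S2.mk_bad (Or.inl (bd1 hi))
  · left
    apply S2.mk_bad
    right
    show QQ.mk (pj ((x 2 + 1) / 2), pj ((x 3 + 1) / 2)) = QQ.pt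
    rw [QQ_pt_iff]
    have hi' : x 2 = 1 ∨ x 2 = -1 := hi
    rcases hi' with h | h
    · right; left
      exact pj_one (by rw [h]; norm_num)
    · left
      exact pj_zero (by rw [h]; norm_num)
  · have hi' : x 3 = 1 ∨ x 3 = -1 := hi
    rcases hi' with h | h
    · left
      apply S2.mk_bad
      right
      show QQ.mk (pj ((x 2 + 1) / 2), pj ((x 3 + 1) / 2)) = QQ.pt
      rw [QQ_pt_iff]
      right; right; left
      exact pj_one (by rw [h]; norm_num)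
    · right
      obtain ⟨y, hy, hy'⟩ := mem3 (![pj ((x 0 + 1) / 2), pj ((x 1 + 1) / 2)]) (pj ((x 2 + 1) / 2))
      refine ⟨y, hy, ?_⟩
      rw [hy']
      have e : pj ((x 3 + 1) / 2) = 0 := pj_zero (by rw [h]; norm_num)
      unfold a4
      rw [e]

/-- the two extra cells -/
def ex : ℕ → Type
  | 3 => Unit
  | 4 => Unit
  | _ => Empty

/-- characteristic maps of the extra cells -/
def aa : (n : ℕ) → ex n → (Fin n → ℝ) → S2 QQ.pt
  | 3, _ => a3
  | 4, _ => a4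
  | 0, e => Empty.elim e
  | 1, e => Empty.elim e
  | 2, e => Empty.elim e
  | (_ + 5), e => Empty.elim e

theorem ex_ind {p : (n : ℕ) → ex n → Prop} (h3 : p 3 ()) (h4 : p 4 ()) : ∀ n e, p n e
  | 3, () => h3
  | 4, () => h4
  | 0, e => Empty.elim e
  | 1, e => Empty.elim e
  | 2, e => Empty.elim e
  | (_ + 5), e => Empty.elim e

instance ex_fin : (n : ℕ) → Finite (ex n)
  | 3 => inferInstanceAs (Finite Unit)
  | 4 => inferInstanceAs (Finite Unit)
  | 0 => inferInstanceAs (Finite Empty)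
  | 1 => inferInstanceAs (Finite Empty)
  | 2 => inferInstanceAs (Finite Empty)
  | (_ + 5) => inferInstanceAs (Finite Empty)

theorem ex_empty : (n : ℕ) → 4 < n → IsEmpty (ex n) := by
  intro n hn
  refine ⟨fun e => ?_⟩
  exact ex_ind (p := fun n _ => ¬ 4 < n) (by norm_num) (by norm_num) n e hn

variable {K : Type} [TopologicalSpace K] [T2Space K]

/-- the wedge is Hausdorff -/
theorem t2 (k0 : K) (hP : T2Space (S2 QQ.pt)) : T2Space (Wg k0 (S2.pt QQ.pt)) := by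
  set e : C(Unit, K) := ⟨fun _ => k0, continuous_const⟩ with he
  let coll : C(At e (S2.pt QQ.pt), S2 QQ.pt) :=
    At.lift (ContinuousMap.const K (S2.pt QQ.pt)) ⟨fun x => x.2, continuous_snd⟩ (fun _ => rfl)
  have hc : Continuous (fun x : At e (S2.pt QQ.pt) => (At.ret e (S2.pt QQ.pt) x, coll x)) :=
    (At.ret e (S2.pt QQ.pt)).continuous.prodMk coll.continuous
  refine T2Space.of_injective_continuous ?_ hc
  intro x y h
  rw [Prod.mk.injEq] at h
  obtain ⟨h1, h2⟩ := h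
  induction x using At.ind with
  | hK k =>
    induction y using At.ind with
    | hK k' =>
      have : k = k' := h1
      rw [this]
    | hP c p =>
      have e1 : k = k0 := h1
      have e2 : S2.pt QQ.pt = p := h2
      subst e2
      rw [At.glue, e1]
      rfl
  | hP c p =>
    induction y using At.ind with
    | hK k' =>
      have e1 : k0 = k' := h1
      have e2 : p = S2.pt QQ.pt := h2
      subst e2
      rw [At.glue, ← e1]
      rfl
    | hP c' p' =>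
      have e2 : p = p' := h2
      rw [e2]

end

end Pool.Agent.W826.SC.CwAt
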