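import Mathlib
import Pool.Agent.W826.SC.CwAt

/-! # SC-CWAT: assembly -/

set_option autoImplicit false

open unitInterval Topology ContinuousMap
open Metric (ball closedBall sphere ball_subset_closedBall)

namespace Pool.Agent.W826.SC.CwAt2

open Pool.Agent.W622.SC Pool.Agent.W826.SC.CwAt Pool.Agent.W826.SC

noncomputable section

variable {K : Type} [TopologicalSpace K] [T2Space K] (cw : Topology.CWComplex (Set.univ : Set K))
  (k0 : K)

/-- the map of the second wedge summand -/
def iP (p : S2 QQ.pt) : Wg k0 (S2.pt QQ.pt) := At.inP _ _ ((), p)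

/-- the inclusion of the first summand -/
def iK : C(K, Wg k0 (S2.pt QQ.pt)) := At.inK _ _

omit [T2Space K] in
theorem iP_cont : Continuous (iP (K := K) k0) :=
  (At.inP _ _).continuous.comp (Continuous.prodMk continuous_const continuous_id)

omit [T2Space K] in
theorem iK_inj : Function.Injective (iK (K := K) k0) := fun _ _ h => At.inK_inj _ _ h

omit [T2Space K] in
theorem iP_inj : Function.Injective (iP (K := K) k0) := by
  intro p p' h
  rcases (At.inP_eq_inP_iff _ _).1 h with h | h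
  · rw [h.1, h.2.1]
  · exact h.2.2

omit [T2Space K] in
theorem iP_pt : iP (K := K) k0 (S2.pt QQ.pt) = iK k0 k0 := At.glue _ _ _

omit [T2Space K] in
theorem iP_ne_iK {p : S2 QQ.pt} (hp : p ≠ S2.pt QQ.pt) (k : K) : iP (K := K) k0 p ≠ iK k0 k := by
  intro h
  exact hp ((At.inP_eq_inK_iff _ _).1 h).1

/-- the characteristic maps -/
def ph (n : ℕ) (j : cw.cell n ⊕ ex n) (x : Fin n → ℝ) : Wg k0 (S2.pt QQ.pt) :=
  Sum.elim (fun j => iK k0 (cw.map n j x)) (fun e => iP k0 (aa n e x)) j

omit [T2Space K] in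
theorem coverK (hdim : ∀ n, 2 < n → IsEmpty (cw.cell n)) (k : K) :
    ∃ m, m < 3 ∧ ∃ (j : cw.cell m ⊕ ex m), ∃ x ∈ closedBall (0 : Fin m → ℝ) 1,
      ph cw k0 m j x = iK k0 k := by
  have hk : k ∈ ⋃ (n : ℕ) (j : cw.cell n), cw.map n j '' closedBall 0 1 := by
    rw [cw.union']
    trivial
  simp only [Set.mem_iUnion] at hk
  obtain ⟨n, j, x, hx, he⟩ := hk
  refine ⟨n, ?_, Sum.inl j, x, hx, ?_⟩
  · by_contra hn
    exact (hdim n (by omega)).false j
  · show iK k0 (cw.map n j x) = _
    rw [he]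

omit [T2Space K] in
theorem cover3 (t : Fin 2 → I) (w : I) :
    ∃ (j : cw.cell 3 ⊕ ex 3), ∃ x ∈ closedBall (0 : Fin 3 → ℝ) 1,
      ph cw k0 3 j x = iP k0 (S2.mk QQ.pt (t, QQ.mk (w, 0))) := by
  obtain ⟨x, hx, he⟩ := mem3 t w
  refine ⟨Sum.inr (), x, hx, ?_⟩
  show iP k0 (a3 x) = _
  rw [he]

omit [T2Space K] in
theorem coverAll (hdim : ∀ n, 2 < n → IsEmpty (cw.cell n)) (y : Wg k0 (S2.pt QQ.pt)) :
    ∃ m, m < 5 ∧ ∃ (j : cw.cell m ⊕ ex m), ∃ x ∈ closedBall (0 : Fin m → ℝ) 1,
      ph cw k0 m j x = y := by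
  induction y using At.ind with
  | hK k =>
    obtain ⟨m, hm, h⟩ := coverK cw k0 hdim k
    exact ⟨m, by omega, h⟩
  | hP c p =>
    obtain ⟨⟨t, q⟩, rfl⟩ := S2.mk_surj QQ.pt p
    obtain ⟨⟨w, r⟩, rfl⟩ := QQ.mk_surj q
    obtain ⟨x, hx, he⟩ := mem4 t w r
    refine ⟨4, by norm_num, Sum.inr (), x, hx, ?_⟩
    show iP k0 (a4 x) = _
    rw [he]
    rfl

theorem main (hP : T2Space (S2 QQ.pt)) : S_cwAt := by
  intro K _ _ cw hfin hdim k0
  haveI hT2 : T2Space (Wg k0 (S2.pt QQ.pt)) := t2 k0 hP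
  refine ⟨hT2, ?_⟩
  obtain ⟨cw', hf, hsk⟩ := mkCW (X := Wg k0 (S2.pt QQ.pt)) (fun n => cw.cell n ⊕ ex n)
    (ph cw k0)
    (by
      filter_upwards [Filter.eventually_gt_atTop 4] with n hn
      haveI := hdim n (by omega)
      haveI := ex_empty n hn
      infer_instance)
    (by
      intro n
      haveI : Finite (cw.cell n) := hfin.toFiniteType.finite_cell n
      infer_instance)
    (by
      rintro n (j | e)
      · exact (iK k0).continuous.comp_continuousOn (cw.continuousOn n j)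
      · refine Continuous.continuousOn ?_
        refine (iP_cont k0).comp ?_
        exact ex_ind (p := fun n e => Continuous (aa n e)) a3_cont a4_cont n e)
    (by
      rintro n (j | e)
      · intro x hx y hy h
        have h1 := (cw.map n j).injOn
        rw [cw.source_eq] at h1
        exact h1 hx hy (iK_inj k0 h)
      · intro x hx y hy h
        exact ex_ind (p := fun n e => Set.InjOn (aa n e) (ball 0 1)) a3_inj a4_inj n e hx hy
          (iP_inj k0 h))
    (by
      have hane : ∀ n (e : ex n), ∀ x ∈ ball (0 : Fin n → ℝ) 1, aa n e x ≠ S2.pt QQ.pt :=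
        ex_ind (p := fun n e => ∀ x ∈ ball (0 : Fin n → ℝ) 1, aa n e x ≠ S2.pt QQ.pt)
          (fun x hx => a3_ne hx) (fun x hx => a4_ne hx)
      rintro ⟨n, j | e⟩ - ⟨m, i | f⟩ - hne
      · have hne' : (⟨n, j⟩ : Σ n, cw.cell n) ≠ ⟨m, i⟩ := by
          intro h
          apply hne
          cases h
          rfl
        have h1 := cw.pairwiseDisjoint' (Set.mem_univ _) (Set.mem_univ _) hne'
        show Disjoint (ph cw k0 n (Sum.inl j) '' ball 0 1) (ph cw k0 m (Sum.inl i) '' ball 0 1)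
        rw [Set.disjoint_left]
        rintro _ ⟨x, hx, rfl⟩ ⟨y, hy, h⟩
        have h2 : cw.map m i y = cw.map n j x := iK_inj k0 h
        exact Set.disjoint_left.1 h1 ⟨x, hx, rfl⟩ ⟨y, hy, h2⟩
      · show Disjoint (ph cw k0 n (Sum.inl j) '' ball 0 1) (ph cw k0 m (Sum.inr f) '' ball 0 1)
        rw [Set.disjoint_left]
        rintro _ ⟨x, hx, rfl⟩ ⟨y, hy, h⟩
        exact iP_ne_iK k0 (hane m f y hy) _ h
      · show Disjoint (ph cw k0 n (Sum.inr e) '' ball 0 1) (ph cw k0 m (Sum.inl i) '' ball 0 1)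
        rw [Set.disjoint_left]
        rintro _ ⟨x, hx, rfl⟩ ⟨y, hy, h⟩
        exact iP_ne_iK k0 (hane n e x hx) _ h.symm
      · show Disjoint (ph cw k0 n (Sum.inr e) '' ball 0 1) (ph cw k0 m (Sum.inr f) '' ball 0 1)
        rw [Set.disjoint_left]
        rintro _ ⟨x, hx, rfl⟩ ⟨y, hy, h⟩
        have h2 : aa m f y = aa n e x := iP_inj k0 h
        have key : ∀ n (e : ex n), ∀ m (f : ex m), ∀ x ∈ ball (0 : Fin n → ℝ) 1,
            ∀ y ∈ ball (0 : Fin m → ℝ) 1, aa m f y = aa n e x →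
            (⟨n, Sum.inr e⟩ : Σ n, cw.cell n ⊕ ex n) = ⟨m, Sum.inr f⟩ := by
          refine ex_ind ?_ ?_
          · refine ex_ind ?_ ?_
            · intro x hx y hy h
              rfl
            · intro x hx y hy h
              exact absurd h.symm (fun h => a34 hx hy h)
          · refine ex_ind ?_ ?_
            · intro x hx y hy h
              exact absurd h (fun h => a34 hy hx h)
            · intro x hx y hy h
              rfl
        exact hne (key n e m f x hx y hy h2))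
    (by
      rintro n (j | e)
      · intro x hx
        obtain ⟨J, hJ⟩ := cw.mapsTo' n j
        have h1 := hJ hx
        simp only [Set.mem_iUnion, exists_prop] at h1 ⊢
        obtain ⟨m, hm, i, -, y, hy, he⟩ := h1
        refine ⟨m, hm, Sum.inl i, y, hy, ?_⟩
        show iK k0 (cw.map m i y) = iK k0 (cw.map n j x)
        rw [he]
      · have key : ∀ n (e : ex n), ∀ x ∈ sphere (0 : Fin n → ℝ) 1,
            ∃ m, m < n ∧ ∃ (j : cw.cell m ⊕ ex m), ∃ y ∈ closedBall (0 : Fin m → ℝ) 1,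
              ph cw k0 m j y = iP k0 (aa n e x) := by
          refine ex_ind ?_ ?_
          · intro x hx
            have h1 : aa 3 () x = S2.pt QQ.pt := a3_sph hx
            rw [h1, iP_pt]
            exact coverK cw k0 hdim k0
          · intro x hx
            rcases a4_sph hx with h1 | ⟨y, hy, h1⟩
            · have h1' : aa 4 () x = S2.pt QQ.pt := h1
              rw [h1', iP_pt]
              obtain ⟨m, hm, h⟩ := coverK cw k0 hdim k0
              exact ⟨m, by omega, h⟩
            · refine ⟨3, by norm_num, Sum.inr (), y, hy, ?_⟩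
              show iP k0 (a3 y) = iP k0 (a4 x)
              rw [h1]
        intro x hx
        simp only [Set.mem_iUnion, exists_prop]
        obtain ⟨m, hm, j, y, hy, he⟩ := key n e x hx
        exact ⟨m, hm, j, y, hy, he⟩)
    (by
      rw [Set.eq_univ_iff_forall]
      intro y
      obtain ⟨m, -, j, x, hx, he⟩ := coverAll cw k0 hdim y
      simp only [Set.mem_iUnion]
      exact ⟨m, j, x, hx, he⟩)
  refine ⟨cw', hf, ?_⟩
  intro g hgK hgP n x hx
  rw [hsk] at hx ⊢
  simp only [Set.mem_iUnion, exists_prop] at hx ⊢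
  obtain ⟨m, hm, j | e, y, hy, he⟩ := hx
  · refine ⟨m, hm, Sum.inl j, y, hy, ?_⟩
    have he' : iK k0 (cw.map m j y) = x := he
    rw [he, ← he']
    exact (hgK _).symm
  · have key : ∀ m (e : ex m), m < n → ∀ y ∈ closedBall (0 : Fin m → ℝ) 1, iP k0 (aa m e y) = x →
        ∃ i < n, ∃ (i_1 : cw.cell i ⊕ ex i), g x ∈ ph cw k0 i i_1 '' closedBall 0 1 := by
      refine ex_ind ?_ ?_
      · intro hm y hy he
        rcases hgP (![pj ((y 0 + 1) / 2), pj ((y 1 + 1) / 2)]) (pj ((y 2 + 1) / 4)) with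
          ⟨k, hk⟩ | ⟨t', w', hw⟩
        · have hk' : g x = iK k0 k := by rw [← he]; exact hk
          obtain ⟨m', hm', j, z, hz, hz'⟩ := coverK cw k0 hdim k
          exact ⟨m', by omega, j, z, hz, by rw [hk', hz']⟩
        · have hw' : g x = iP k0 (S2.mk QQ.pt (t', QQ.mk (w', 0))) := by rw [← he]; exact hw
          obtain ⟨j, z, hz, hz'⟩ := cover3 cw k0 t' w'
          exact ⟨3, hm, j, z, hz, by rw [hw', hz']⟩
      · intro hm y hy he
        obtain ⟨m', hm', j, z, hz, hz'⟩ := coverAll cw k0 hdim (g x)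
        exact ⟨m', by omega, j, z, hz, hz'⟩
    exact key m e hm y hy he

theorem main_of_emb (h : S_emb) : S_cwAt := by
  obtain ⟨N, f, hf, -⟩ := h
  exact main hf.t2Space

end

end Pool.Agent.W826.SC.CwAt2
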